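import Pool.Agent.MP_d5eec5_gt.H77.KSpec

/-! Colourings by reduced stacks separate the reduced words. -/

set_option autoImplicit false

namespace Pool.Agent.MP_d5eec5_gt.H77

open Pool.Agent.MP_d5eec5_gt.H48

namespace Col3A

/-- Pop the letter `i` if it is on top, push it otherwise. -/
def tog (i : Fin 3) : List (Fin 3) → List (Fin 3)
  | [] => [i]
  | j :: t => if j = i then t else i :: j :: t

theorem tog_cases (i : Fin 3) (s : List (Fin 3)) :
    s = i :: tog i s ∨ (s.head? ≠ some i ∧ tog i s = i :: s) := by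
  rcases s with _ | ⟨j, t⟩
  · simp [tog]
  · by_cases h : j = i <;> simp [tog, h]

theorem tog_push (i : Fin 3) (s : List (Fin 3)) (h : s.head? ≠ some i) : tog i s = i :: s := by
  rcases tog_cases i s with h1 | h1
  · rw [h1] at h
    simp at h
  · exact h1.2

theorem tog_chain (i : Fin 3) (s : List (Fin 3)) (h : s.IsChain (· ≠ ·)) :
    (tog i s).IsChain (· ≠ ·) := by
  rcases tog_cases i s with h1 | ⟨h1, h2⟩
  · rw [h1] at h
    exact h.tail
  · rw [h2, List.isChain_cons]
    refine ⟨fun y hy e => h1 ?_, h⟩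
    rw [e]
    exact hy

theorem tog_tog (i : Fin 3) (s : List (Fin 3)) (h : s.IsChain (· ≠ ·)) : tog i (tog i s) = s := by
  rcases tog_cases i s with h1 | ⟨-, h2⟩
  · rw [h1, List.isChain_cons] at h
    rw [tog_push i _ fun e => h.1 i e rfl, ← h1]
  · rw [h2]
    simp [tog]

/-- Reduced stacks. -/
abbrev Stk : Type := {s : List (Fin 3) // s.IsChain (· ≠ ·)}

/-- The involution of the letter `i`. -/
def px (i : Fin 3) : Equiv.Perm Stk where
  toFun s := ⟨tog i s.1, tog_chain i _ s.2⟩
  invFun s := ⟨tog i s.1, tog_chain i _ s.2⟩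
  left_inv s := Subtype.ext (tog_tog i _ s.2)
  right_inv s := Subtype.ext (tog_tog i _ s.2)

theorem px_val (i : Fin 3) (s : Stk) : (px i s).1 = tog i s.1 := rfl

theorem px_px (i : Fin 3) (s : Stk) : px i (px i s) = s := Subtype.ext (tog_tog i _ s.2)

/-- The two monodromies. -/
def gam : Bool → Equiv.Perm Stk
  | false => px 1 * px 0
  | true => px 2 * px 1

theorem seg_apply (x : Fin 3) (s : Stk) : seg gam x s = px x (px 0 s) := by
  fin_cases x <;> simp [seg, gam, px_px]

theorem seg_seg (x y : Fin 3) (s : Stk) : seg gam y ((seg gam x)⁻¹ s) = px y (px x s) := by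
  have : (seg gam x)⁻¹ s = px 0 (px x s) := by
    rw [Equiv.Perm.inv_eq_iff_eq, seg_apply, px_px, px_px]
  rw [this, seg_apply, px_px]

/-- The action of a word on stacks. -/
def run (v s : List (Fin 3)) : List (Fin 3) := v.foldl (fun s i => tog i s) s

theorem act_val : ∀ (v : List (Fin 3)) (s : Stk), Even v.length → (act gam v s).1 = run v s.1
  | [], _, _ => rfl
  | [_], _, h => by simp at h
  | x :: y :: v, s, h => by
    rw [act, act_val v _ (by simpa [parity_simps] using h), seg_seg]
    rfl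

theorem run_append (u v s : List (Fin 3)) : run (u ++ v) s = run v (run u s) := List.foldl_append

theorem run_chain : ∀ v s : List (Fin 3), v.IsChain (· ≠ ·) → (∀ a ∈ v.head?, s.head? ≠ some a) →
    run v s = v.reverse ++ s
  | [], _, _, _ => rfl
  | a :: v, s, h, h' => by
    rw [List.isChain_cons] at h
    have : run (a :: v) s = run v (tog a s) := rfl
    rw [this, tog_push a s (h' a rfl), run_chain v _ h.2 fun b hb e => h.1 b hb (by simpa using e)]
    simp

theorem pad_even (c : Bool) (w : List (Fin 3)) : Even (pad c w).length := by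
  rw [Nat.even_iff]
  cases c <;> simp only [pad] <;> split_ifs with h1 h2 <;> simp at * <;> omega

theorem split_eq (a : Fin 3) : ∀ β β' r r' : List (Fin 3), a ∉ β → a ∉ β' → r.head? = some a →
    r'.head? = some a → β ++ r = β' ++ r' → β = β' ∧ r = r'
  | [], [], _, _, _, _, _, _, e => ⟨rfl, e⟩
  | [], b :: _, r, _, _, h, hr, _, e => by
    rw [List.nil_append] at e
    rw [e] at hr
    simp_all
  | b :: _, [], _, r', h, _, _, hr, e => by
    rw [List.nil_append] at e
    subst e
    simp_all
  | b :: β, b' :: β', r, r', h, h', hr, hr', e => by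
    simp only [List.cons_append, List.cons.injEq] at e
    have := split_eq a β β' r r' (fun x => h (by simp [x])) (fun x => h' (by simp [x])) hr hr' e.2
    exact ⟨by rw [e.1, this.1], this.2⟩

theorem tog_len (i : Fin 3) (s : List (Fin 3)) : (tog i s).length % 2 = (s.length + 1) % 2 := by
  rcases tog_cases i s with h | ⟨-, h⟩
  · have := congrArg List.length h
    simp only [List.length_cons] at this
    omega
  · rw [h, List.length_cons]

theorem tog_notMem {a i : Fin 3} (hi : a ≠ i) {s : List (Fin 3)} (h : a ∉ s) : a ∉ tog i s := by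
  rcases tog_cases i s with h1 | ⟨-, h1⟩
  · rw [h1] at h
    exact fun x => h (List.mem_cons_of_mem _ x)
  · rw [h1]
    simp [hi, h]

theorem tog_pre {i : Fin 3} (hi : 0 ≠ i) {r : List (Fin 3)} (hr : r.head? = some 0)
    {s : List (Fin 3)} (h : ∃ β, 0 ∉ β ∧ s = β ++ r) : ∃ β, 0 ∉ β ∧ tog i s = β ++ r := by
  obtain ⟨β, hβ, rfl⟩ := h
  rcases β with _ | ⟨j, t⟩
  · exact ⟨[i], by simp [hi], tog_push i _ (by simp [hr, hi])⟩
  · refine ⟨tog i (j :: t), tog_notMem hi hβ, ?_⟩
    by_cases h : j = i <;> simp [tog, h]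

/-- The colours allowed at the two endpoints. -/
def PP (r : List (Fin 3)) : Bool → Set Stk
  | false => {s | s.1.length % 2 = 0 ∧ 2 ∉ s.1}
  | true => {s | ∃ β, 0 ∉ β ∧ s.1 = β ++ r}

theorem adm {r : List (Fin 3)} (hr : r.head? = some 0) : Adm gam (PP r) := by
  have a0 : ∀ i j : Fin 3, 2 ≠ i → 2 ≠ j → ∀ s ∈ PP r false, px j (px i s) ∈ PP r false :=
    fun i j hi hj s hs => ⟨by
      have h1 := hs.1
      rw [px_val, px_val, tog_len, Nat.add_mod, tog_len]
      omega, tog_notMem hj (tog_notMem hi hs.2)⟩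
  have a1 : ∀ i j : Fin 3, 0 ≠ i → 0 ≠ j → ∀ s ∈ PP r true, px j (px i s) ∈ PP r true :=
    fun i j hi hj s hs => tog_pre hj hr (tog_pre hi hr hs)
  rintro (_ | _) x
  · refine ⟨a0 0 1 (by decide) (by decide) x, fun h => ?_⟩
    simpa [gam, px_px] using a0 1 0 (by decide) (by decide) _ h
  · refine ⟨a1 1 2 (by decide) (by decide) x, fun h => ?_⟩
    simpa [gam, px_px] using a1 2 1 (by decide) (by decide) _ h

theorem run_pad (c : Bool) {w : List (Fin 3)} (hw : Valid w) {s : List (Fin 3)}
    (h0 : s.length % 2 = 0) (h2 : 2 ∉ s) :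
    ∃ β α, 0 ∉ β ∧ 2 ∉ α ∧ α.length % 2 = c.toNat ∧ (s = [] → α = if c then [0] else []) ∧
      run (pad c w) s = β ++ (w.reverse ++ α) := by
  obtain ⟨w1, w2, w3⟩ := hw
  have hα : 2 ∉ run (if c then [0] else []) s := by
    cases c
    · exact h2
    · exact tog_notMem (by decide) h2
  have hw' : ∀ α, (w.reverse ++ α).head? = some 0 := fun α => by
    rw [List.head?_append, List.head?_reverse, w2]
    rfl
  refine ⟨if (c.toNat + w.length) % 2 = 1 then [2] else [], run (if c then [0] else []) s, ?_, hα,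
    ?_, ?_, ?_⟩
  · split_ifs <;> simp
  · cases c
    · exact h0
    · exact (tog_len 0 s).trans (by simp only [Bool.toNat_true]; omega)
  · rintro rfl
    cases c <;> rfl
  · rw [pad, run_append, run_append, run_chain w _ w3 fun a ha e => hα (by
      rw [w1] at ha
      obtain rfl : 2 = a := by simpa using ha
      exact List.mem_of_mem_head? e)]
    split_ifs
    all_goals first | rfl | exact tog_push 2 _ (by rw [hw']; decide)

end Col3A

open Col3A in
theorem col3 : StmtCol3 := by
  intro c w hw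
  have hr : ∀ {w : List (Fin 3)}, Valid w → ∀ α, (w.reverse ++ α).head? = some 0 :=
    fun hw α => by
      rw [List.head?_append, List.head?_reverse, hw.2.1]
      rfl
  refine ⟨Stk, gam, PP (w.reverse ++ if c then [0] else []), adm (hr hw _),
    ⟨⟨[], List.isChain_nil⟩, ⟨rfl, by simp⟩, ?_⟩, fun x hx hx' => ?_, fun c' w' hw' h => ?_⟩
  · obtain ⟨β, α, h1, -, -, h4, h5⟩ := run_pad c hw (s := []) rfl (by simp)
    exact ⟨β, h1, by rw [act_val _ _ (pad_even c w), h5, h4 rfl]⟩
  · obtain ⟨β, -, e⟩ := hx'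
    refine hx.2 ?_
    rw [e]
    simp [List.mem_of_mem_head? hw.1]
  · obtain ⟨x, hx, β, hβ, e⟩ := h
    obtain ⟨β', α, h1, h2, h3, -, h5⟩ := run_pad c' hw' hx.1 hx.2
    rw [act_val _ _ (pad_even c' w'), h5] at e
    have e1 := congrArg List.reverse (split_eq 0 _ _ _ _ h1 hβ (hr hw' _) (hr hw _) e).2
    simp only [List.reverse_append, List.reverse_reverse] at e1
    obtain ⟨e2, e3⟩ := split_eq 2 _ _ _ _ (by simpa using h2) (by cases c <;> simp) hw'.1 hw.1 e1
    refine ⟨?_, e3⟩
    rw [List.reverse_inj.1 e2] at h3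
    revert h3
    cases c <;> cases c' <;> simp

end Pool.Agent.MP_d5eec5_gt.H77
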